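import Pool.Agent.Helper40.Ct.Goals

set_option autoImplicit false

open Finset MeasureTheory

namespace Pool.Agent.Helper5.Ct

open Pool.Agent.Helper40.Ct

lemma exists_avoid (d : ℕ) (V : Set (Submodule ℝ (Fin d → ℝ))) (hV : V.Finite)
    (hp : ∀ W ∈ V, W ≠ ⊤) (v : Fin d → ℝ) (δ : ℝ) (hδ : 0 < δ) :
    ∃ w : Fin d → ℝ, (∀ k, |w k - v k| < δ) ∧ ∀ W ∈ V, w ∉ W := by
  classical
  by_contra hcon
  push Not at hcon
  have hsub : {w : Fin d → ℝ | ∀ k, |w k - v k| < δ} ⊆ ⋃ W ∈ V, (W : Set (Fin d → ℝ)) := by
    intro w hw
    obtain ⟨W, hW, hwW⟩ := hcon w hw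
    exact Set.mem_biUnion hW hwW
  have hopen : IsOpen {w : Fin d → ℝ | ∀ k, |w k - v k| < δ} := by
    have : {w : Fin d → ℝ | ∀ k, |w k - v k| < δ} = ⋂ k, {w : Fin d → ℝ | |w k - v k| < δ} := by
      ext w; simp
    rw [this]
    apply isOpen_iInter_of_finite
    intro k
    exact isOpen_lt (by fun_prop) continuous_const
  have hpos : 0 < (volume : Measure (Fin d → ℝ)) {w : Fin d → ℝ | ∀ k, |w k - v k| < δ} :=
    hopen.measure_pos _ ⟨v, by intro k; simpa using hδ⟩
  have hzero : (volume : Measure (Fin d → ℝ)) (⋃ W ∈ V, (W : Set (Fin d → ℝ))) = 0 := by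
    rw [measure_biUnion_null_iff hV.countable]
    intro W hW
    exact Measure.addHaar_submodule _ W (hp W hW)
  have := measure_mono_null hsub hzero
  exact absurd this hpos.ne'

lemma gp_aux (d : ℕ) (ι : Type) [DecidableEq ι] (v : ι → (Fin d → ℝ))
    (B0 : Finset (Fin d → ℝ)) (δ : ℝ) (hδ : 0 < δ) (S : Finset ι) :
    ∃ u : ι → (Fin d → ℝ), (∀ i k, |u i k - v i k| < δ) ∧
      ∀ (A : Finset ι) (B : Finset (Fin d → ℝ)), A ⊆ S → B ⊆ B0 → A.card + B.card ≤ d →
        ∀ (c : ι → ℝ) (c' : (Fin d → ℝ) → ℝ), ∑ i ∈ A, c i • u i + ∑ b ∈ B, c' b • b = 0 →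
          ∀ i ∈ A, c i = 0 := by
  classical
  induction S using Finset.induction_on with
  | empty =>
    refine ⟨v, fun i k => by simpa using hδ, ?_⟩
    intro A B hA _ _ c c' _ i hi
    exact absurd (hA hi) (by simp)
  | insert i0 S hi0 ih =>
    obtain ⟨u, hu1, hu2⟩ := ih
    let P : Finset (Finset ι × Finset (Fin d → ℝ)) :=
      (S.powerset ×ˢ B0.powerset).filter (fun q => q.1.card + q.2.card < d)
    let F : Finset ι × Finset (Fin d → ℝ) → Submodule ℝ (Fin d → ℝ) :=
      fun q => Submodule.span ℝ (((q.1.image u) ∪ q.2 : Finset (Fin d → ℝ)) : Set (Fin d → ℝ))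
    have hfin : (F '' (P : Set (Finset ι × Finset (Fin d → ℝ)))).Finite :=
      P.finite_toSet.image F
    have hprop : ∀ W ∈ F '' (P : Set (Finset ι × Finset (Fin d → ℝ))), W ≠ ⊤ := by
      rintro W ⟨q, hq, rfl⟩ htop
      have hq' : q.1.card + q.2.card < d := by
        have : q ∈ P := hq
        exact (Finset.mem_filter.1 this).2
      have h1 : Module.finrank ℝ (F q) ≤ ((q.1.image u) ∪ q.2).card :=
        finrank_span_finset_le_card _
      rw [htop, finrank_top] at h1
      have h2 : Module.finrank ℝ (Fin d → ℝ) = d := by simp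
      rw [h2] at h1
      have h3 : ((q.1.image u) ∪ q.2).card ≤ q.1.card + q.2.card :=
        (Finset.card_union_le _ _).trans (Nat.add_le_add_right Finset.card_image_le _)
      omega
    obtain ⟨w, hw1, hw2⟩ := exists_avoid d _ hfin hprop (v i0) δ hδ
    refine ⟨Function.update u i0 w, ?_, ?_⟩
    · intro i k
      by_cases h : i = i0
      · subst h; simpa using hw1 k
      · rw [Function.update_of_ne h]; exact hu1 i k
    · intro A B hA hB hcard c c' hsum
      have hS : ∀ A' : Finset ι, A' ⊆ S → ∑ i ∈ A', c i • Function.update u i0 w i =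
          ∑ i ∈ A', c i • u i := by
        intro A' hA'
        refine Finset.sum_congr rfl (fun i hi => ?_)
        have : i ≠ i0 := by
          rintro rfl
          exact hi0 (hA' hi)
        rw [Function.update_of_ne this]
      by_cases hiA : i0 ∈ A
      · have hA'S : A.erase i0 ⊆ S := by
          intro i hi
          have h1 := hA (Finset.mem_of_mem_erase hi)
          rcases Finset.mem_insert.1 h1 with h | h
          · exact absurd h (Finset.ne_of_mem_erase hi)
          · exact h
        have hcA : (A.erase i0).card + 1 = A.card := Finset.card_erase_add_one hiA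
        have hsplit : c i0 • w + ∑ i ∈ A.erase i0, c i • u i + ∑ b ∈ B, c' b • b = 0 := by
          rw [← Finset.add_sum_erase A _ hiA, hS _ hA'S] at hsum
          simpa using hsum
        have hc0 : c i0 = 0 := by
          by_contra hne
          have hmem : w ∈ F (A.erase i0, B) := by
            have hx : ∑ i ∈ A.erase i0, c i • u i + ∑ b ∈ B, c' b • b ∈ F (A.erase i0, B) := by
              refine Submodule.add_mem _ (Submodule.sum_mem _ fun i hi => ?_)
                (Submodule.sum_mem _ fun b hb => ?_)
              · refine Submodule.smul_mem _ _ (Submodule.subset_span ?_)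
                simp only [Finset.coe_union, Set.mem_union, Finset.mem_coe]
                exact Or.inl (Finset.mem_image_of_mem u hi)
              · refine Submodule.smul_mem _ _ (Submodule.subset_span ?_)
                simp only [Finset.coe_union, Set.mem_union, Finset.mem_coe]
                exact Or.inr hb
            have hy : c i0 • w ∈ F (A.erase i0, B) := by
              have : c i0 • w = -(∑ i ∈ A.erase i0, c i • u i + ∑ b ∈ B, c' b • b) := by
                rw [eq_neg_iff_add_eq_zero, ← add_assoc]; exact hsplit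
              rw [this]; exact Submodule.neg_mem _ hx
            exact (Submodule.smul_mem_iff _ hne).1 hy
          refine hw2 _ ⟨(A.erase i0, B), ?_, rfl⟩ hmem
          show (A.erase i0, B) ∈ P
          refine Finset.mem_filter.2 ⟨Finset.mem_product.2 ⟨Finset.mem_powerset.2 hA'S,
            Finset.mem_powerset.2 hB⟩, ?_⟩
          show (A.erase i0).card + B.card < d
          omega
        intro i hi
        by_cases h : i = i0
        · rw [h]; exact hc0
        · refine hu2 (A.erase i0) B hA'S hB (by omega) c c' ?_ i (Finset.mem_erase.2 ⟨h, hi⟩)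
          rw [hc0] at hsplit
          simpa using hsplit
      · have hAS : A ⊆ S := by
          intro i hi
          rcases Finset.mem_insert.1 (hA hi) with h | h
          · exact absurd (h ▸ hi) hiA
          · exact h
        rw [hS A hAS] at hsum
        exact hu2 A B hAS hB hcard c c' hsum

theorem gp : GP := by
  classical
  intro d ι _ v B0 δ hδ
  obtain ⟨u, h1, h2⟩ := gp_aux d ι v B0 δ hδ Finset.univ
  exact ⟨u, h1, fun A B hB hcard c c' hsum => h2 A B (Finset.subset_univ _) hB hcard c c' hsum⟩

end Pool.Agent.Helper5.Ct
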